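import Mathlib

namespace Pool.Agent.Results.MP_cbbafe_pr.TwoMin

open Finset Set

/-- `P(τ > n)` after the fixed letters `s`: the chance that `T` is not a factor of `s X₁ … Xₙ`
(`true` is H). -/
noncomputable def surv (T s : List Bool) (p : ℝ) (n : ℕ) : ℝ :=
  ∑ w : Fin n → Bool with ¬ T <:+: s ++ List.ofFn w, ∏ i, if w i then p else 1 - p

/-- `P(τ₁ < τ₂) + P(τ₁ = τ₂) / 2`, summed over the value `n + 1` of `τ₁`. -/
noncomputable def W (T₁ T₂ : List Bool) (p : ℝ) : ℝ :=
  ∑' n, (surv T₁ [] p n - surv T₁ [] p (n + 1)) *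
    (surv T₂ [] p (n + 1) + (surv T₂ [] p n - surv T₂ [] p (n + 1)) / 2)

variable {p : ℝ}

lemma sS (T s : List Bool) (n : ℕ) : surv T s p (n + 1) =
    p * surv T (s ++ [true]) p n + (1 - p) * surv T (s ++ [false]) p n := by
  simp only [surv, sum_filter, mul_sum]
  rw [← (Fin.consEquiv fun _ => Bool).sum_comp, Fintype.sum_prod_type, Fintype.sum_bool]
  simp [Fin.prod_univ_succ, List.ofFn_succ]

lemma s0 (T s : List Bool) (h : ¬ T <:+: s) : surv T s p 0 = 1 := by simp [surv, h]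

lemma sb (h : p ∈ Ioo (0 : ℝ) 1) (T : List Bool) (n : ℕ) : ∀ s, surv T s p n ∈ Icc (0 : ℝ) 1 := by
  induction n with
  | zero => intro s; by_cases e : T <:+: s <;> simp [surv, e]
  | succ n ih =>
    intro s
    obtain ⟨a, b⟩ := ih (s ++ [true])
    obtain ⟨c, d⟩ := ih (s ++ [false])
    rw [sS]
    constructor <;> nlinarith [h.1, h.2]

lemma a1 (n : ℕ) : surv [true, false] [true] p n = p ^ n := by
  induction n with
  | zero => exact s0 _ _ (by decide)
  | succ n ih =>
    rw [sS, pow_succ', ← ih]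
    simp [surv, List.infix_cons_iff]

lemma a0 (n : ℕ) : (p - (1 - p)) * surv [true, false] [] p n = p ^ (n + 1) - (1 - p) ^ (n + 1) := by
  induction n with
  | zero => simp [s0]
  | succ n ih =>
    have : surv [true, false] ([] ++ [false]) p n = surv [true, false] [] p n := by
      simp [surv, List.infix_cons_iff]
    rw [sS, List.nil_append, a1, this]
    linear_combination (1 - p) * ih

lemma gf (h : p ∈ Ioo (0 : ℝ) 1) {x : ℝ} (hx : x ∈ Ioo (0 : ℝ) 1) :
    HasSum (fun n => x ^ n * surv [true, true, false, false] [] p n)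
      (1 - x + (x * p) ^ 2 * (x * (1 - p)) ^ 2)⁻¹ := by
  set T := [true, true, false, false]
  have sm : ∀ s, Summable fun n => x ^ n * surv T s p n := fun s =>
    .of_nonneg_of_le (fun n => mul_nonneg (pow_nonneg hx.1.le n) (sb h T n s).1)
      (fun n => mul_le_of_le_one_right (pow_nonneg hx.1.le n) (sb h T n s).2)
      (summable_geometric_of_lt_one hx.1.le hx.2)
  have e : ∀ s, ¬ T <:+: s → ∑' n, x ^ n * surv T s p n = 1 + (x * p * ∑' n, x ^ n *
      surv T (s ++ [true]) p n + x * (1 - p) * ∑' n, x ^ n * surv T (s ++ [false]) p n) :=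
    fun s hs => by
      rw [(sm s).tsum_eq_zero_add, s0 T s hs, ← tsum_mul_left, ← tsum_mul_left,
        ← ((sm _).mul_left _).tsum_add ((sm _).mul_left _)]
      simp only [sS]
      congr 1
      · simp
      · exact tsum_congr fun n => by ring
  have e0 := e [] (by decide)
  have e1 := e [true] (by decide)
  have e2 := e [true, true] (by decide)
  have e3 := e [true, true, false] (by decide)
  have r0 : surv T ([] ++ [false]) p = surv T [] p := by ext; simp [T, surv, List.infix_cons_iff]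
  have r1 : surv T ([true] ++ [false]) p = surv T [] p := by
    ext; simp [T, surv, List.infix_cons_iff]
  have r2 : surv T ([true, true] ++ [true]) p = surv T [true, true] p := by
    ext; simp [T, surv, List.infix_cons_iff]
  have r3 : surv T ([true, true, false] ++ [true]) p = surv T [true] p := by
    ext; simp [T, surv, List.infix_cons_iff]
  have r4 : surv T ([true, true, false] ++ [false]) p = fun _ => 0 := by
    ext; simp [T, surv, List.infix_cons_iff]
  rw [r0] at e0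
  rw [r1] at e1
  rw [r2] at e2
  rw [r3, r4] at e3
  simp only [List.nil_append, List.cons_append, mul_zero, tsum_zero] at e0 e1 e2 e3
  convert (sm []).hasSum
  refine inv_eq_of_mul_eq_one_right ?_
  linear_combination (1 - x * p - (x * p) ^ 2 * (x * (1 - p))) * e0 + x * p * (1 - x * p) * e1 +
    (x * p) ^ 2 * e2 + (x * p) ^ 2 * (x * (1 - p)) * e3

noncomputable def R (p : ℝ) : ℝ :=
  ((1 - p) * ((p + 1) * (1 - p + (p * p) ^ 2 * (p * (1 - p)) ^ 2)⁻¹ - 1) - p * ((1 - p + 1) *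
    (1 - (1 - p) + ((1 - p) * p) ^ 2 * ((1 - p) * (1 - p)) ^ 2)⁻¹ - 1)) / (2 * (p - (1 - p)))

lemma WR (h : p ∈ Ioo (0 : ℝ) 1) (h2 : p - (1 - p) ≠ 0) :
    W [true, false] [true, true, false, false] p = R p := by
  have a := gf h h
  have b := gf h (x := 1 - p) ⟨sub_pos.2 h.2, sub_lt_self _ h.1⟩
  have a' := (hasSum_nat_add_iff' 1).2 a
  have b' := (hasSum_nat_add_iff' 1).2 b
  have := ((((a.mul_left p).add a').mul_left (1 - p)).sub
    (((b.mul_left (1 - p)).add b').mul_left p)).div_const (2 * (p - (1 - p)))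
  refine ((tsum_congr fun n => ?_).trans this.tsum_eq).trans ?_
  · rw [eq_div_of_mul_eq h2 ((mul_comm _ _).trans (a0 n)),
      eq_div_of_mul_eq h2 ((mul_comm _ _).trans (a0 (n + 1)))]
    field_simp
    ring
  · simp only [range_one, sum_singleton, s0 _ _ (by decide : ¬ [true, true, false, false] <:+: []), R]
    ring

lemma loc {a b c : ℝ} (h0 : 0 < a) (h1 : c < 1) (hab : a ≤ b) (hbc : b ≤ c)
    (h2 : c < 1 / 2 ∨ 1 / 2 < a) (ha : R b < R a) (hc : R b < R c) :
    ∃ x ∈ Ioo a c, IsLocalExtr (W [true, false] [true, true, false, false]) x := by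
  have ne : ∀ x ∈ Icc a c, x - (1 - x) ≠ 0 := fun x hx e => by
    rcases h2 with h | h <;> linarith [hx.1, hx.2]
  obtain ⟨x, hx, hm⟩ := isCompact_Icc.exists_isMinOn ⟨b, hab, hbc⟩ (f := R) (by
    unfold R
    refine ContinuousOn.div₀ ?_ (by fun_prop) fun x hx => mul_ne_zero two_ne_zero (ne x hx)
    refine .sub (.mul (by fun_prop) (.sub (.mul (by fun_prop) (.inv₀ (by fun_prop) fun x hx => ?_))
      (by fun_prop))) (.mul (by fun_prop) (.sub (.mul (by fun_prop) (.inv₀ (by fun_prop)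
        fun x hx => ?_)) (by fun_prop))) <;>
    exact (add_pos_of_pos_of_nonneg (by linarith [hx.1, hx.2]) (by positivity)).ne')
  have hb : R x ≤ R b := hm ⟨hab, hbc⟩
  have hx' : x ∈ Ioo a c := ⟨hx.1.lt_of_ne fun e => by subst e; linarith,
    hx.2.lt_of_ne fun e => by subst e; linarith⟩
  refine ⟨x, hx', Or.inl ((hm.isLocalMin (Icc_mem_nhds hx'.1 hx'.2)).congr ?_)⟩
  filter_upwards [Icc_mem_nhds hx'.1 hx'.2] with y hy
  exact (WR ⟨by linarith [hy.1], by linarith [hy.2]⟩ (ne y hy)).symm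

theorem result : ∃ T₁ T₂ : List Bool, T₁ ≠ [] ∧ T₂ ≠ [] ∧
    (∃ p ∈ Ioo (0 : ℝ) 1, ∃ q ∈ Ioo (0 : ℝ) 1, W T₁ T₂ p ≠ W T₁ T₂ q) ∧
    ∃ x ∈ Ioo (0 : ℝ) 1, ∃ y ∈ Ioo (0 : ℝ) 1, x ≠ y ∧
      IsLocalExtr (W T₁ T₂) x ∧ IsLocalExtr (W T₁ T₂) y := by
  obtain ⟨x, hx, ex⟩ := loc (a := 1 / 10) (b := 1 / 5) (c := 2 / 5) (by norm_num) (by norm_num)
    (by norm_num) (by norm_num) (by norm_num) (by norm_num [R]) (by norm_num [R])
  obtain ⟨y, hy, ey⟩ := loc (a := 3 / 5) (b := 4 / 5) (c := 9 / 10) (by norm_num) (by norm_num)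
    (by norm_num) (by norm_num) (by norm_num) (by norm_num [R]) (by norm_num [R])
  refine ⟨_, _, by simp, by simp, ⟨1 / 10, by norm_num, 1 / 5, by norm_num, ?_⟩,
    x, ⟨by linarith [hx.1], by linarith [hx.2]⟩, y, ⟨by linarith [hy.1], by linarith [hy.2]⟩,
    ne_of_lt (by linarith [hx.2, hy.1]), ex, ey⟩
  rw [WR (by norm_num) (by norm_num), WR (by norm_num) (by norm_num)]
  norm_num [R]

end Pool.Agent.Results.MP_cbbafe_pr.TwoMin
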